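import Pool.Agent.Helper40.MR.Defs

/-!
# MP_7a8f48_an, module EXP: exponential sums in short windows (from MR, PL, MIN, MAJ)
-/

open Finset MeasureTheory
open scoped BigOperators Nat

namespace Pool.Agent.Helper40.MR

/-! ### the Liouville function -/

theorem exp_lam_one : lam 1 = 1 := by simp [lam]

theorem exp_lam_mul (m n : ℕ) : lam (m * n) = lam m * lam n := by
  unfold lam
  by_cases hm : m = 0
  · simp [hm]
  · by_cases hn : n = 0
    · simp [hn]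
    · rw [if_neg (mul_ne_zero hm hn), if_neg hm, if_neg hn,
        (Nat.perm_primeFactorsList_mul hm hn).length_eq, List.length_append, pow_add]

theorem exp_lam_norm (n : ℕ) : ‖lam n‖ ≤ 1 := by
  unfold lam
  split_ifs
  · simp
  · simp

theorem exp_lam_CM : CM lam := ⟨exp_lam_one, exp_lam_mul, exp_lam_norm⟩

theorem exp_lch_norm {q : ℕ} (χ : DirichletCharacter ℂ q) (n : ℕ) : ‖lch χ n‖ ≤ 1 := by
  unfold lch
  rw [norm_mul]
  exact mul_le_one₀ (exp_lam_norm n) (norm_nonneg _) (DirichletCharacter.norm_le_one χ _)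

theorem exp_res_norm {s : ℕ → Prop} {f : ℕ → ℂ} (hf : ∀ n, ‖f n‖ ≤ 1) (n : ℕ) : ‖res s f n‖ ≤ 1 := by
  unfold res
  split_ifs
  · exact hf n
  · simp

/-! ### invariance of the sets -/

theorem exp_hit_mul {P Q : ℝ} {d n : ℕ} (h : ∀ p : ℕ, p.Prime → p ∣ d → ¬ (P < p ∧ (p : ℝ) ≤ Q)) :
    Hit P Q (d * n) ↔ Hit P Q n := by
  unfold Hit
  constructor
  · rintro ⟨p, hp, h1, h2, h3⟩
    rcases (Nat.Prime.dvd_mul hp).1 h3 with h4 | h4
    · exact absurd ⟨h1, h2⟩ (h p hp h4)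
    · exact ⟨p, hp, h1, h2, h4⟩
  · rintro ⟨p, hp, h1, h2, h3⟩
    exact ⟨p, hp, h1, h2, h3.mul_left d⟩

theorem exp_Psc_mono {y : ℝ} (hy : 1 ≤ y) (j : ℕ) : Psc y 0 ≤ Psc y j := by
  unfold Psc
  apply Real.exp_le_exp.2
  exact pow_le_pow_right₀ hy (Nat.pow_le_pow_right (by norm_num) (Nat.zero_le j))

theorem exp_Q0_le {K y : ℝ} (hK : 2 ≤ K) (hy : K ≤ y) {j : ℕ} (hj : 1 ≤ j) : Qsc K y 0 ≤ Psc y j := by
  unfold Psc Qsc
  rw [if_pos rfl]
  apply Real.exp_le_exp.2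
  have hy1 : 1 ≤ y := by linarith
  have h1 : 2 ≤ 20 ^ j := by
    calc 2 ≤ 20 ^ 1 := by norm_num
      _ ≤ 20 ^ j := Nat.pow_le_pow_right (by norm_num) hj
  calc K * y ≤ y * y := mul_le_mul_of_nonneg_right hy (by linarith)
    _ = y ^ 2 := by ring
    _ ≤ _ := pow_le_pow_right₀ hy1 h1

theorem exp_SS_mul {K y θ₁ θ₂ Z W : ℝ} (hy : 1 ≤ y) (hW : W ≤ Psc y 0) (hZ : W ≤ Z ^ θ₁) {d : ℕ} (n : ℕ)
    (hd0 : 1 ≤ d) (hd : (d : ℝ) ≤ W) : SS K y θ₁ θ₂ Z (d * n) ↔ SS K y θ₁ θ₂ Z n := by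
  have hp : ∀ p : ℕ, p.Prime → p ∣ d → (p : ℝ) ≤ W := by
    intro p _ hpd
    have : p ≤ d := Nat.le_of_dvd hd0 hpd
    exact le_trans (by exact_mod_cast this) hd
  unfold SS
  constructor
  · rintro ⟨h1, h2⟩
    refine ⟨fun j hj => ?_, ?_⟩
    · refine (exp_hit_mul fun p hp1 hp2 h => ?_).1 (h1 j hj)
      have := exp_Psc_mono hy j
      linarith [hp p hp1 hp2, h.1]
    · refine (exp_hit_mul fun p hp1 hp2 h => ?_).1 h2
      linarith [hp p hp1 hp2, h.1]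
  · rintro ⟨h1, h2⟩
    refine ⟨fun j hj => ?_, ?_⟩
    · refine (exp_hit_mul fun p hp1 hp2 h => ?_).2 (h1 j hj)
      have := exp_Psc_mono hy j
      linarith [hp p hp1 hp2, h.1]
    · refine (exp_hit_mul fun p hp1 hp2 h => ?_).2 h2
      linarith [hp p hp1 hp2, h.1]

/-- the set without the condition for `j = 0` -/
def exp_s' (K y θ₁ θ₂ Z : ℝ) (n : ℕ) : Prop :=
  (∀ j ∈ range (Jz y Z + 1), j ≠ 0 → Hit (Psc y j) (Qsc K y j) n) ∧ Hit (Z ^ θ₁) (Z ^ θ₂) n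

theorem exp_SS_iff (K y θ₁ θ₂ Z : ℝ) (n : ℕ) :
    SS K y θ₁ θ₂ Z n ↔ (exp_s' K y θ₁ θ₂ Z n ∧ Hit (Psc y 0) (Qsc K y 0) n) := by
  unfold SS exp_s'
  constructor
  · rintro ⟨h1, h2⟩
    exact ⟨⟨fun j hj _ => h1 j hj, h2⟩, h1 0 (mem_range.2 (Nat.succ_pos _))⟩
  · rintro ⟨⟨h1, h2⟩, h3⟩
    refine ⟨fun j hj => ?_, h2⟩
    by_cases hj0 : j = 0
    · subst hj0; exact h3
    · exact h1 j hj hj0

theorem exp_inv {K y θ₁ θ₂ Z : ℝ} (hK : 2 ≤ K) (hy : K ≤ y) (hZ : Qsc K y 0 ≤ Z ^ θ₁) :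
    Inv (Psc y 0) (Qsc K y 0) (exp_s' K y θ₁ θ₂ Z) := by
  intro p n hp _ hpQ _
  have h0 : ∀ (A B : ℝ), Qsc K y 0 ≤ A → (Hit A B (p * n) ↔ Hit A B n) := by
    intro A B hA
    refine exp_hit_mul fun p' hp' hdvd h => ?_
    have : p' = p := (Nat.prime_dvd_prime_iff_eq hp' hp).1 hdvd
    subst this
    linarith [h.1]
  unfold exp_s'
  constructor
  · rintro ⟨h1, h2⟩
    exact ⟨fun j hj hj0 => (h0 _ _ (exp_Q0_le hK hy (Nat.one_le_iff_ne_zero.2 hj0))).1 (h1 j hj hj0), (h0 _ _ hZ).1 h2⟩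
  · rintro ⟨h1, h2⟩
    exact ⟨fun j hj hj0 => (h0 _ _ (exp_Q0_le hK hy (Nat.one_le_iff_ne_zero.2 hj0))).2 (h1 j hj hj0), (h0 _ _ hZ).2 h2⟩

/-! ### finitely many characters -/

theorem exp_chars (A : (q : ℕ) → DirichletCharacter ℂ q → ℝ → Prop)
    (h : ∀ (q : ℕ) (χ : DirichletCharacter ℂ q), 1 ≤ q → ∃ Z₀ : ℝ, ∀ Z, Z₀ ≤ Z → A q χ Z) (R : ℕ) :
    ∃ Z₁ : ℝ, ∀ Z, Z₁ ≤ Z → ∀ r ∈ Finset.Icc 1 R, ∀ χ : DirichletCharacter ℂ r, A r χ Z := by
  have h1 : ∀ᶠ Z in Filter.atTop, ∀ r ∈ Finset.Icc 1 R, ∀ χ : DirichletCharacter ℂ r, A r χ Z := by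
    rw [Filter.eventually_all_finset]
    intro r hr
    have hr1 : 1 ≤ r := (Finset.mem_Icc.1 hr).1
    have : NeZero r := ⟨by omega⟩
    have : Finite (DirichletCharacter ℂ r) := inferInstance
    rw [Filter.eventually_all]
    intro χ
    obtain ⟨Z₀, hZ₀⟩ := h r χ hr1
    filter_upwards [Filter.eventually_ge_atTop Z₀] with Z hZ using hZ₀ Z hZ
  obtain ⟨Z₁, hZ₁⟩ := Filter.eventually_atTop.1 h1
  exact ⟨Z₁, fun Z hZ => hZ₁ Z hZ⟩

/-! ### Dirichlet approximation -/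

theorem exp_dirichlet (θ : ℝ) {L' : ℕ} {W : ℝ} (hW : 1 ≤ W) (hWL : W ≤ L') :
    ∃ (a : ℤ) (q : ℕ), 1 ≤ q ∧ (q : ℝ) ≤ L' / W ∧ IsCoprime a (q : ℤ) ∧ |θ - a / q| ≤ W / (q * L') ∧
      |θ - a / q| ≤ 1 / (q : ℝ) ^ 2 := by
  have hW0 : 0 < W := by linarith
  have hL0 : (0 : ℝ) < L' := by linarith
  have hN : 0 < ⌊(L' : ℝ) / W⌋₊ := by
    rw [Nat.floor_pos, one_le_div hW0]
    exact hWL
  obtain ⟨r, hr1, hr2⟩ := Real.exists_rat_abs_sub_le_and_den_le θ hN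
  have hden : 0 < r.den := r.den_pos
  have hden' : (0 : ℝ) < r.den := by exact_mod_cast hden
  have hrq : (r : ℝ) = (r.num : ℝ) / (r.den : ℝ) := by
    exact_mod_cast (Rat.num_div_den r).symm
  have hfl : (L' : ℝ) / W < (⌊(L' : ℝ) / W⌋₊ : ℝ) + 1 := Nat.lt_floor_add_one _
  have hfl' : (r.den : ℝ) ≤ (⌊(L' : ℝ) / W⌋₊ : ℝ) := by exact_mod_cast hr2
  refine ⟨r.num, r.den, hden, ?_, ?_, ?_, ?_⟩
  · exact hfl'.trans (Nat.floor_le (by positivity))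
  · exact Int.isCoprime_iff_gcd_eq_one.2 (by
      have := r.reduced
      rw [Int.gcd, Int.natAbs_natCast]
      exact this)
  · rw [← hrq]
    refine hr1.trans ?_
    rw [div_le_div_iff₀ (by positivity) (by positivity)]
    have h1 : (L' : ℝ) ≤ W * ((⌊(L' : ℝ) / W⌋₊ : ℝ) + 1) := by
      rw [mul_comm]
      exact ((div_lt_iff₀ hW0).1 hfl).le
    nlinarith
  · rw [← hrq]
    refine hr1.trans ?_
    rw [div_le_div_iff₀ (by positivity) (by positivity)]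
    nlinarith

/-! ### large `L` -/

theorem exp_large (LM K C₁ C₂ w : ℝ) (hw : 0 < w) : ∀ᶠ L in Filter.atTop, LM ≤ L ∧ Real.exp (4 * K ^ 2) ≤ L ∧ 1 ≤ L ∧
    C₁ ≤ L ^ (3 * w / 4) ∧ Real.log (2 * L) ≤ L ^ (w / 16) ∧ C₂ ≤ L ^ (w / 8) := by
  have h1 := (tendsto_rpow_atTop (y := 3 * w / 4) (by positivity)).eventually (Filter.eventually_ge_atTop C₁)
  have h2 := (tendsto_rpow_atTop (y := w / 8) (by positivity)).eventually (Filter.eventually_ge_atTop C₂)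
  have h3 : ∀ᶠ L : ℝ in Filter.atTop, Real.log (2 * L) ≤ L ^ (w / 16) := by
    have h4 := (isLittleO_log_rpow_atTop (r := w / 16) (by positivity)).bound (c := 1 / 2) (by norm_num)
    have h5 := (tendsto_rpow_atTop (y := w / 16) (by positivity)).eventually (Filter.eventually_ge_atTop (2 * Real.log 2))
    filter_upwards [h4, h5, Filter.eventually_ge_atTop (1 : ℝ)] with L h6 h7 h8
    rw [Real.log_mul (by norm_num) (by linarith)]
    rw [Real.norm_eq_abs, Real.norm_eq_abs, abs_of_nonneg (Real.log_nonneg h8),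
      abs_of_nonneg (Real.rpow_nonneg (by linarith) _)] at h6
    linarith
  filter_upwards [Filter.eventually_ge_atTop LM, Filter.eventually_ge_atTop (Real.exp (4 * K ^ 2)),
    Filter.eventually_ge_atTop (1 : ℝ), h1, h3, h2] with L a b c d e f using ⟨a, b, c, d, e, f⟩

theorem exp_scales {K L : ℝ} (hK : 2 ≤ K) (hL : Real.exp (4 * K ^ 2) ≤ L) :
    K ≤ Real.log L / (4 * K) ∧ Psc (Real.log L / (4 * K)) 0 = L ^ (1 / (4 * K)) ∧
      Qsc K (Real.log L / (4 * K)) 0 = L ^ (1 / 4 : ℝ) := by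
  have hL0 : 0 < L := lt_of_lt_of_le (Real.exp_pos _) hL
  have hlog : 4 * K ^ 2 ≤ Real.log L := by
    rw [← Real.log_exp (4 * K ^ 2)]
    exact Real.log_le_log (Real.exp_pos _) hL
  refine ⟨?_, ?_, ?_⟩
  · rw [le_div_iff₀ (by linarith)]
    nlinarith
  · unfold Psc
    rw [Real.rpow_def_of_pos hL0]
    congr 1
    rw [pow_zero, pow_one]
    ring
  · unfold Qsc
    rw [if_pos rfl, Real.rpow_def_of_pos hL0]
    congr 1
    have : K ≠ 0 := by linarith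
    field_simp

theorem st_EXP (hMR : ST_MR) (hPL : ST_PL) (hMIN : ST_MIN) (hMAJ : ST_MAJ) : ST_EXP := by
  intro K θ₁ θ₂ hK hθ₁ hθ₁₂ hθ₂
  obtain ⟨κM, hκM, LM, hMR⟩ := hMR K θ₁ θ₂ hK hθ₁ hθ₁₂ hθ₂
  obtain ⟨CP, hCP, hPL⟩ := hPL
  obtain ⟨Cm, hCm, hMIN⟩ := hMIN
  obtain ⟨CJ, hCJ, hMAJ⟩ := hMAJ
  obtain ⟨w, hw0, hw1, hw2, hw3⟩ : ∃ w : ℝ, 0 < w ∧ w ≤ κM / 4 ∧ w ≤ 1 / 100 ∧ w ≤ 1 / (4 * K) := by
    refine ⟨min (κM / 4) (min (1 / 100) (1 / (4 * K))), ?_, min_le_left _ _, ?_, ?_⟩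
    · refine lt_min (by positivity) (lt_min (by norm_num) (by positivity))
    · exact (min_le_right _ _).trans (min_le_left _ _)
    · exact (min_le_right _ _).trans (min_le_right _ _)
  refine ⟨w / 4, by positivity, ?_⟩
  obtain ⟨L0, hL0⟩ := Filter.eventually_atTop.1 (exp_large LM K (CJ * (2 * CP + 1)) (3 * Cm) w hw0)
  refine ⟨L0, fun L hL => ?_⟩
  obtain ⟨hLM, hLK, hL1, hLJ, hLlog, hLm⟩ := hL0 L hL
  obtain ⟨hy, hP, hQ⟩ := exp_scales hK hLK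
  have hLpos : 0 < L := by linarith
  have rp : ∀ {a b : ℝ}, a ≤ b → L ^ a ≤ L ^ b := fun h => Real.rpow_le_rpow_of_exponent_le hL1 h
  have rpos : ∀ a : ℝ, 0 < L ^ a := fun a => Real.rpow_pos_of_pos hLpos a
  have radd : ∀ a b : ℝ, L ^ a * L ^ b = L ^ (a + b) := fun a b => (Real.rpow_add hLpos a b).symm
  have hW1 : 1 ≤ L ^ w := Real.one_le_rpow hL1 hw0.le
  obtain ⟨Z1, hZ1⟩ := exp_chars (fun q χ Z => ∀ X T : ℝ, Z / L ≤ X → X ≤ Z → 1 ≤ T → T ≤ X →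
    ∫ t in (-T)..T, ‖DP (IocN X (2 * X)) (res (SS K (Real.log L / (4 * K)) θ₁ θ₂ Z) (lch χ)) t‖ ^ 2 ≤
    (T * L ^ (1 / 4 : ℝ) / X + 1) * L ^ (-κM)) (fun q χ hq => by
      obtain ⟨Z₀, h⟩ := hMR L hLM q χ hq
      exact ⟨Z₀, fun Z hZ X T => h Z X T hZ⟩) ⌊L ^ w⌋₊
  refine ⟨max Z1 (max (L ^ (1 + w / 4)) (L ^ (1 / (4 * θ₁)))), ?_⟩
  intro Z X L' θ hZ hX1 hX2 hL'1 hL'2
  have hZ1' : Z1 ≤ Z := (le_max_left _ _).trans hZ
  have hZ2 : L ^ (1 + w / 4) ≤ Z := ((le_max_left _ _).trans (le_max_right _ _)).trans hZ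
  have hZ3 : L ^ (1 / (4 * θ₁)) ≤ Z := ((le_max_right _ _).trans (le_max_right _ _)).trans hZ
  have hZpos : 0 < Z := lt_of_lt_of_le (rpos _) hZ2
  have hXL : L ≤ X := by
    refine le_trans ?_ hX1
    rw [le_div_iff₀ (rpos _)]
    calc L * L ^ (w / 4) = L ^ (1 + w / 4) := by rw [Real.rpow_add hLpos, Real.rpow_one]
      _ ≤ Z := hZ2
  have hXpos : 0 < X := by linarith
  have hZθ : L ^ (1 / 4 : ℝ) ≤ Z ^ θ₁ := by
    have h1 : (L ^ (1 / (4 * θ₁))) ^ θ₁ ≤ Z ^ θ₁ := Real.rpow_le_rpow (rpos _).le hZ3 hθ₁.le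
    rw [← Real.rpow_mul hLpos.le] at h1
    have h2 : 1 / (4 * θ₁) * θ₁ = 1 / 4 := by field_simp
    rwa [h2] at h1
  have hL'X : (L' : ℝ) ≤ X := hL'2.trans hXL
  have hL'pos : (0 : ℝ) < L' := lt_of_lt_of_le (rpos _) hL'1
  have hWL : L ^ w ≤ L' := (rp (by linarith)).trans hL'1
  have hW2 : (L ^ w) ^ 2 ≤ L' := by
    rw [← Real.rpow_natCast, ← Real.rpow_mul hLpos.le]
    exact (rp (by push_cast; linarith)).trans hL'1
  have hWP : L ^ w ≤ Psc (Real.log L / (4 * K)) 0 := by rw [hP]; exact rp hw3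
  have h4K : 1 / (4 * K) ≤ 1 / 8 := by
    rw [div_le_div_iff₀ (by linarith) (by norm_num)]
    linarith
  have hWZ : L ^ w ≤ Z ^ θ₁ := (rp (by linarith)).trans hZθ
  obtain ⟨a, q, hq1, hqW, hcop, happ1, happ2⟩ := exp_dirichlet θ hW1 hWL
  by_cases hq : (q : ℝ) ≤ L ^ w
  · -- major arcs
    have hE0 : 0 ≤ CP * (L ^ (-(κM / 2)) + L ^ (-(1 / 4 : ℝ))) :=
      mul_nonneg hCP.le (add_nonneg (rpos _).le (rpos _).le)
    refine (hMAJ X (L ^ w) (CP * (L ^ (-(κM / 2)) + L ^ (-(1 / 4 : ℝ)))) L'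
      (SS K (Real.log L / (4 * K)) θ₁ θ₂ Z) hW1 hW2 hL'X hE0
      (fun d n hd hdW _ => exp_SS_mul (by linarith) hWP hWZ n hd hdW) ?_ θ a q hq1 hq happ1).trans ?_
    · intro d r χ hd hdW hr hrW
      have hd0 : (0 : ℝ) < d := by exact_mod_cast hd
      have hr' : r ∈ Finset.Icc 1 ⌊L ^ w⌋₊ := Finset.mem_Icc.2 ⟨hr, Nat.le_floor hrW⟩
      have hXd : Z / L ≤ X / d := by
        rw [div_le_div_iff₀ hLpos hd0]
        have h1 : Z ≤ X * L ^ (w / 4) := (div_le_iff₀ (rpos _)).1 hX1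
        have h2 : L ^ (w / 4) * L ^ w ≤ L := by
          rw [radd]
          calc L ^ (w / 4 + w) ≤ L ^ (1 : ℝ) := rp (by linarith)
            _ = L := Real.rpow_one L
        calc Z * d ≤ (X * L ^ (w / 4)) * L ^ w := mul_le_mul h1 hdW hd0.le (by positivity)
          _ = X * (L ^ (w / 4) * L ^ w) := by ring
          _ ≤ X * L := mul_le_mul_of_nonneg_left h2 hXpos.le
      have hXd2 : X / d ≤ Z := by
        refine (div_le_self hXpos.le ?_).trans hX2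
        exact_mod_cast hd
      have hmr := fun T => hZ1 Z hZ1' r hr' χ (X / d) T hXd hXd2
      have hBh : L ^ (1 / 4 : ℝ) ≤ L' / ((L ^ w) ^ 2 * d) := by
        rw [le_div_iff₀ (by positivity)]
        calc L ^ (1 / 4 : ℝ) * ((L ^ w) ^ 2 * d) ≤ L ^ (1 / 4 : ℝ) * ((L ^ w) ^ 2 * L ^ w) := by gcongr
          _ = L ^ (1 / 4 + (w + w + w)) := by
            rw [pow_two, radd, radd, radd]
          _ ≤ L ^ (9 / 10 : ℝ) := rp (by linarith)
          _ ≤ L' := hL'1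
      have hhX : L' / ((L ^ w) ^ 2 * d) ≤ X / d := by
        rw [div_le_div_iff₀ (by positivity) hd0]
        have h1 : (1 : ℝ) ≤ (L ^ w) ^ 2 := one_le_pow₀ hW1
        calc (L' : ℝ) * d ≤ X * d := mul_le_mul_of_nonneg_right hL'X hd0.le
          _ = X * (1 * d) := by ring
          _ ≤ X * ((L ^ w) ^ 2 * d) := by gcongr
      have hB1 : 1 ≤ L ^ (1 / 4 : ℝ) := Real.one_le_rpow hL1 (by norm_num)
      have hE1 : L ^ (-κM) ≤ 1 := by
        calc L ^ (-κM) ≤ L ^ (0 : ℝ) := rp (by linarith)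
          _ = 1 := Real.rpow_zero L
      have hpl := hPL (X / d) (L' / ((L ^ w) ^ 2 * d)) (L ^ (-κM)) (L ^ (1 / 4 : ℝ))
        (res (SS K (Real.log L / (4 * K)) θ₁ θ₂ Z) (lch χ)) (exp_res_norm (exp_lch_norm χ)) hB1 hBh hhX
        (rpos _).le hE1 hmr
      have e : L' / ((L ^ w) ^ 2 * d) / (X / d) = L' / ((L ^ w) ^ 2 * X) := by
        field_simp
      rw [e] at hpl
      refine hpl.trans ?_
      have e1 : Real.sqrt (L ^ (-κM)) = L ^ (-(κM / 2)) := by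
        rw [Real.sqrt_eq_rpow, ← Real.rpow_mul hLpos.le]
        congr 1
        ring
      have e2 : 1 / (L' / ((L ^ w) ^ 2 * d)) ≤ L ^ (-(1 / 4 : ℝ)) := by
        rw [Real.rpow_neg hLpos.le, ← one_div]
        exact one_div_le_one_div_of_le (rpos _) hBh
      rw [e1]
      have e3 : 0 ≤ CP * (L' / ((L ^ w) ^ 2 * d)) := by positivity
      calc CP * (L' / ((L ^ w) ^ 2 * d)) * (L ^ (-(κM / 2)) + 1 / (L' / ((L ^ w) ^ 2 * d)))
          ≤ CP * (L' / ((L ^ w) ^ 2 * d)) * (L ^ (-(κM / 2)) + L ^ (-(1 / 4 : ℝ))) := by gcongr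
        _ = _ := by ring
    · have e1 : L ^ w * L ^ (-(κM / 2)) ≤ L ^ (-w) := by
        rw [radd]; exact rp (by linarith)
      have e2 : L ^ w * L ^ (-(1 / 4 : ℝ)) ≤ L ^ (-w) := by
        rw [radd]; exact rp (by linarith)
      have e3 : 1 / L ^ w = L ^ (-w) := by rw [Real.rpow_neg hLpos.le, one_div]
      have e4 : L ^ w * (CP * (L ^ (-(κM / 2)) + L ^ (-(1 / 4 : ℝ)))) + 1 / L ^ w ≤ (2 * CP + 1) * L ^ (-w) := by
        rw [e3]
        nlinarith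
      have e5 : CJ * ((2 * CP + 1) * L ^ (-w)) ≤ L ^ (-(w / 4)) := by
        calc CJ * ((2 * CP + 1) * L ^ (-w)) = (CJ * (2 * CP + 1)) * L ^ (-w) := by ring
          _ ≤ L ^ (3 * w / 4) * L ^ (-w) := mul_le_mul_of_nonneg_right hLJ (rpos _).le
          _ = L ^ (-(w / 4)) := by rw [radd]; congr 1; ring
      have e6 : 0 ≤ X * L' := by positivity
      calc _ = (X * L') * (CJ * (L ^ w * (CP * (L ^ (-(κM / 2)) + L ^ (-(1 / 4 : ℝ)))) + 1 / L ^ w)) := by ring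
        _ ≤ (X * L') * (CJ * ((2 * CP + 1) * L ^ (-w))) := by gcongr
        _ ≤ _ := mul_le_mul_of_nonneg_left e5 e6
  · -- minor arcs
    rw [not_le] at hq
    have hqpos : (0 : ℝ) < q := by exact_mod_cast hq1
    have hy0 : 0 < Real.log L / (4 * K) := by linarith
    have h2P : 2 ≤ Psc (Real.log L / (4 * K)) 0 := by
      unfold Psc
      rw [pow_zero, pow_one]
      have := Real.add_one_le_exp (Real.log L / (4 * K))
      linarith
    have hPQ : Psc (Real.log L / (4 * K)) 0 < Qsc K (Real.log L / (4 * K)) 0 := by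
      unfold Psc Qsc
      rw [if_pos rfl, pow_zero, pow_one]
      apply Real.exp_lt_exp.2
      nlinarith
    have hQL' : Qsc K (Real.log L / (4 * K)) 0 ≤ L' := by
      rw [hQ]; exact (rp (by norm_num)).trans hL'1
    have hmin := hMIN (Psc (Real.log L / (4 * K)) 0) (Qsc K (Real.log L / (4 * K)) 0) X θ lam
      (exp_s' K (Real.log L / (4 * K)) θ₁ θ₂ Z) L' q a h2P hPQ hQL' hL'X exp_lam_CM
      (exp_inv hK hy (by rw [hQ]; exact hZθ)) hq1 hcop happ2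
    have e0 : (fun n : ℕ => X < n ∧ (n : ℝ) ≤ 2 * X ∧ exp_s' K (Real.log L / (4 * K)) θ₁ θ₂ Z n ∧
        Hit (Psc (Real.log L / (4 * K)) 0) (Qsc K (Real.log L / (4 * K)) 0) n)
        = (fun n : ℕ => X < n ∧ (n : ℝ) ≤ 2 * X ∧ SS K (Real.log L / (4 * K)) θ₁ θ₂ Z n) := by
      funext n
      rw [exp_SS_iff]
    rw [e0] at hmin
    refine hmin.trans ?_
    rw [hP, hQ]
    have hlog0 : 0 ≤ Real.log (2 * L) := Real.log_nonneg (by linarith)
    have hqL : (q : ℝ) ≤ L := by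
      refine hqW.trans ((div_le_self hL'pos.le hW1).trans hL'2)
    have f1 : 1 / (q : ℝ) ≤ L ^ (-w) := by
      rw [Real.rpow_neg hLpos.le, ← one_div]
      exact one_div_le_one_div_of_le (rpos _) hq.le
    have f2 : 1 / L ^ (1 / (4 * K)) ≤ L ^ (-w) := by
      rw [Real.rpow_neg hLpos.le, ← one_div]
      exact one_div_le_one_div_of_le (rpos _) (rp hw3)
    have f3 : L ^ (1 / 4 : ℝ) / L' ≤ L ^ (-w) := by
      rw [div_le_iff₀ hL'pos]
      calc L ^ (1 / 4 : ℝ) ≤ L ^ (-w + 9 / 10) := rp (by linarith)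
        _ = L ^ (-w) * L ^ (9 / 10 : ℝ) := (radd _ _).symm
        _ ≤ L ^ (-w) * L' := mul_le_mul_of_nonneg_left hL'1 (rpos _).le
    have f4 : (q : ℝ) / L' ≤ L ^ (-w) := by
      rw [div_le_iff₀ hL'pos, Real.rpow_neg hLpos.le]
      calc (q : ℝ) ≤ L' / L ^ w := hqW
        _ = (L ^ w)⁻¹ * L' := by ring
    have f5 : Real.log (2 * q) ≤ L ^ (w / 16) :=
      (Real.log_le_log (by positivity) (by linarith)).trans hLlog
    have f50 : 0 ≤ Real.log (2 * q) := by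
      apply Real.log_nonneg
      have : (1 : ℝ) ≤ q := by exact_mod_cast hq1
      linarith
    have f6 : (L ^ (1 / 4 : ℝ) + q) * Real.log (2 * q) / L' ≤ 2 * L ^ (-w) * L ^ (w / 16) := by
      have g1 : (L ^ (1 / 4 : ℝ) + q) * Real.log (2 * q) / L' = (L ^ (1 / 4 : ℝ) / L' + q / L') * Real.log (2 * q) := by
        ring
      rw [g1]
      refine mul_le_mul (by linarith) f5 f50 (by have := rpos (-w); linarith)
    have hone : 1 ≤ L ^ (w / 16) := Real.one_le_rpow hL1 (by positivity)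
    have f7 : 1 / (q : ℝ) + 1 / L ^ (1 / (4 * K)) + (L ^ (1 / 4 : ℝ) + q) * Real.log (2 * q) / L'
        ≤ 4 * (L ^ (-w) * L ^ (w / 16)) := by
      have g1 : L ^ (-w) ≤ L ^ (-w) * L ^ (w / 16) := le_mul_of_one_le_right (rpos _).le hone
      nlinarith
    have f8 : Real.sqrt (1 / (q : ℝ) + 1 / L ^ (1 / (4 * K)) + (L ^ (1 / 4 : ℝ) + q) * Real.log (2 * q) / L')
        ≤ 2 * L ^ (-(w / 2) + w / 32) := by
      apply Real.sqrt_le_iff.2
      refine ⟨by have := rpos (-(w / 2) + w / 32); linarith, f7.trans (le_of_eq ?_)⟩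
      rw [mul_pow, pow_two (L ^ (-(w / 2) + w / 32)), radd, radd]
      norm_num
      congr 1
      ring
    have f9 : Real.log (L ^ (1 / 4 : ℝ)) ≤ L ^ (w / 16) := by
      rw [Real.log_rpow hLpos]
      have g1 : Real.log L ≤ Real.log (2 * L) := Real.log_le_log hLpos (by linarith)
      have g2 : 0 ≤ Real.log L := Real.log_nonneg hL1
      linarith
    have f10 : Real.log (L ^ (1 / 4 : ℝ)) * Real.sqrt (1 / (q : ℝ) + 1 / L ^ (1 / (4 * K)) +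
        (L ^ (1 / 4 : ℝ) + q) * Real.log (2 * q) / L') + 1 / L ^ (1 / (4 * K)) ≤ 3 * L ^ (-(3 * w / 8)) := by
      have g1 : L ^ (w / 16) * (2 * L ^ (-(w / 2) + w / 32)) ≤ 2 * L ^ (-(3 * w / 8)) := by
        calc L ^ (w / 16) * (2 * L ^ (-(w / 2) + w / 32)) = 2 * L ^ (w / 16 + (-(w / 2) + w / 32)) := by
              rw [← radd (w / 16)]; ring
          _ ≤ 2 * L ^ (-(3 * w / 8)) := mul_le_mul_of_nonneg_left (rp (by linarith)) (by norm_num)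
      have g2 : L ^ (-w) ≤ L ^ (-(3 * w / 8)) := rp (by linarith)
      have g3 := mul_le_mul f9 f8 (Real.sqrt_nonneg _) (rpos (w / 16)).le
      linarith
    have f11 : Cm * (3 * L ^ (-(3 * w / 8))) ≤ L ^ (-(w / 4)) := by
      calc Cm * (3 * L ^ (-(3 * w / 8))) = (3 * Cm) * L ^ (-(3 * w / 8)) := by ring
        _ ≤ L ^ (w / 8) * L ^ (-(3 * w / 8)) := mul_le_mul_of_nonneg_right hLm (rpos _).le
        _ = L ^ (-(w / 4)) := by rw [radd]; congr 1; ring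
    have e6 : 0 ≤ X * L' := by positivity
    calc _ = (X * L') * (Cm * (Real.log (L ^ (1 / 4 : ℝ)) * Real.sqrt (1 / (q : ℝ) + 1 / L ^ (1 / (4 * K)) +
        (L ^ (1 / 4 : ℝ) + q) * Real.log (2 * q) / L') + 1 / L ^ (1 / (4 * K)))) := by ring
      _ ≤ (X * L') * (Cm * (3 * L ^ (-(3 * w / 8)))) := by gcongr
      _ ≤ _ := mul_le_mul_of_nonneg_left f11 e6

end Pool.Agent.Helper40.MR
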